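import Mathlib
import Pool.Agent.Q60.D3.Stm2

/-!
# Project D3: jobs SLI and LINK
-/

namespace Pool.Agent.Q134.D3

open Matrix Pool.Agent.Q60.D3

/-- The trace zero matrices are spanned by elementary matrices and their brackets. -/
theorem tz_expand (A : Matrix (Fin 3) (Fin 3) ℂ) (hA : A.trace = 0) :
    A = A 0 1 • single 0 1 1 + A 0 2 • single 0 2 1 + A 1 0 • single 1 0 1 +
      A 1 2 • single 1 2 1 + A 2 0 • single 2 0 1 + A 2 1 • single 2 1 1 +
      A 0 0 • (single 0 2 1 * single 2 0 1 - single 2 0 1 * single 0 2 1) +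
      A 1 1 • (single 1 2 1 * single 2 1 1 - single 2 1 1 * single 1 2 1) := by
  have h22 : A 2 2 = -A 0 0 - A 1 1 := by
    rw [Matrix.trace_fin_three] at hA
    linear_combination hA
  ext i j
  fin_cases i <;> fin_cases j <;> simp [h22] <;> ring

theorem single_ne_zero' (i j : Fin 3) : (single i j 1 : Matrix (Fin 3) (Fin 3) ℂ) ≠ 0 := by
  intro h
  have := congrFun (congrFun h i) j
  simp at this

theorem third : ∀ k l : Fin 3, k ≠ l → ∃ m : Fin 3, m ≠ l ∧ m ≠ k := by decide

theorem sli : S_sli := by
  intro I htr had hne A hA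
  -- all elementary matrices from one of them
  have key : ∀ i j : Fin 3, i ≠ j → (single i j 1 : Matrix (Fin 3) (Fin 3) ℂ) ∈ I →
      ∀ k l : Fin 3, k ≠ l → (single k l 1 : Matrix (Fin 3) (Fin 3) ℂ) ∈ I := by
    have s1 : ∀ i j k : Fin 3, i ≠ j → k ≠ i → k ≠ j →
        (single i j 1 : Matrix (Fin 3) (Fin 3) ℂ) ∈ I →
        (single k j 1 : Matrix (Fin 3) (Fin 3) ℂ) ∈ I := by
      intro i j k hij hki hkj h
      have := had k i hki _ h
      rw [Matrix.single_mul_single_same, Matrix.single_mul_single_of_ne _ _ _ _ hkj.symm,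
        one_mul, sub_zero] at this
      exact this
    have s2 : ∀ i j k : Fin 3, i ≠ j → k ≠ i → k ≠ j →
        (single i j 1 : Matrix (Fin 3) (Fin 3) ℂ) ∈ I →
        (single i k 1 : Matrix (Fin 3) (Fin 3) ℂ) ∈ I := by
      intro i j k hij hki hkj h
      have := had j k hkj.symm _ h
      rw [Matrix.single_mul_single_same, Matrix.single_mul_single_of_ne _ _ _ _ hki,
        one_mul, zero_sub] at this
      have := I.neg_mem this
      rwa [neg_neg] at this
    intro i j hij h k l hkl
    -- third index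
    by_cases hkj : k = j
    · subst hkj
      -- want E_{k l}, have E_{i k}
      by_cases hli : l = i
      · subst hli
        -- have E_{l k}, want E_{k l}; third index m
        obtain ⟨m, hml, hmk⟩ := third k l hkl
        have h1 := s2 l k m hij hml hmk h
        have h2 := s1 l m k hml.symm hkl hmk.symm h1
        exact s2 k m l hmk.symm hkl.symm hml.symm h2
      · have h1 := s2 i k l hij hli hkl.symm h
        exact s1 i l k (Ne.symm hli) hij.symm hkl h1
    · -- first make the row k
      have h1 : (single k j 1 : Matrix (Fin 3) (Fin 3) ℂ) ∈ I := by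
        by_cases hki : k = i
        · subst hki; exact h
        · exact s1 i j k hij hki hkj h
      by_cases hlj : l = j
      · subst hlj; exact h1
      · exact s2 k j l hkj hkl.symm hlj h1
  have hone : ∃ i j : Fin 3, i ≠ j ∧ (single i j 1 : Matrix (Fin 3) (Fin 3) ℂ) ∈ I := by
    obtain ⟨B, hB, hB0⟩ := I.exists_mem_ne_zero_of_ne_bot hne
    by_cases hoff : ∃ i j : Fin 3, i ≠ j ∧ B i j ≠ 0
    · obtain ⟨i, j, hij, hb⟩ := hoff
      refine ⟨j, i, hij.symm, ?_⟩
      have h1 := had j i hij.symm _ (had j i hij.symm _ hB)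
      have h2 : single j i 1 * (single j i 1 * B - B * single j i 1) -
          (single j i 1 * B - B * single j i 1) * single j i 1 =
          (-2 * B i j) • (single j i 1 : Matrix (Fin 3) (Fin 3) ℂ) := by
        have hz : (single j i 1 : Matrix (Fin 3) (Fin 3) ℂ) * single j i 1 = 0 :=
          Matrix.single_mul_single_of_ne _ _ _ _ hij _
        have hm : (single j i 1 : Matrix (Fin 3) (Fin 3) ℂ) * B * single j i 1 =
            B i j • single j i 1 := by
          rw [Matrix.single_mul_mul_single, Matrix.smul_single]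
          simp
        rw [mul_sub, sub_mul, ← mul_assoc, hz, zero_mul, mul_assoc B, hz, mul_zero,
          ← mul_assoc, hm]
        rw [neg_mul, neg_smul, two_mul, add_smul]
        abel
      rw [h2] at h1
      exact (I.smul_mem_iff (by simpa using hb)).1 h1
    · push Not at hoff
      have hd : ∃ i j : Fin 3, i ≠ j ∧ B i i ≠ B j j := by
        by_contra hcon
        push Not at hcon
        apply hB0
        have h3 := htr B hB
        rw [Matrix.trace_fin_three] at h3
        have h01 := hcon 0 1 (by decide)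
        have h02 := hcon 0 2 (by decide)
        have h00 : B 0 0 = 0 := by
          rw [← h01, ← h02] at h3
          have : 3 * B 0 0 = 0 := by linear_combination h3
          simpa using this
        ext i j
        by_cases hij : i = j
        · subst hij
          fin_cases i
          · exact h00
          · exact h01 ▸ h00
          · exact h02 ▸ h00
        · exact hoff i j hij
      obtain ⟨i, j, hij, hb⟩ := hd
      refine ⟨i, j, hij, ?_⟩
      have h1 := had i j hij _ hB
      have h2 : single i j 1 * B - B * single i j 1 =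
          (B j j - B i i) • (single i j 1 : Matrix (Fin 3) (Fin 3) ℂ) := by
        ext a b
        have e1 := hoff
        simp only [Matrix.sub_apply, Matrix.smul_apply, Matrix.mul_apply, Matrix.single_apply,
          Fin.sum_univ_three, smul_eq_mul]
        fin_cases i <;> fin_cases j <;> first
          | (exact absurd rfl hij)
          | (fin_cases a <;> fin_cases b <;> simp [hoff])
      rw [h2] at h1
      exact (I.smul_mem_iff (sub_ne_zero.2 hb.symm)).1 h1
  obtain ⟨i, j, hij, h⟩ := hone
  have hall := key i j hij h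
  have hbr : ∀ i j : Fin 3, i ≠ j →
      (single i j 1 * single j i 1 - single j i 1 * single i j 1 :
        Matrix (Fin 3) (Fin 3) ℂ) ∈ I := fun i j hij => had i j hij _ (hall j i hij.symm)
  rw [tz_expand A hA]
  refine I.add_mem (I.add_mem (I.add_mem (I.add_mem (I.add_mem (I.add_mem (I.add_mem ?_ ?_) ?_) ?_)
    ?_) ?_) ?_) ?_
  · exact I.smul_mem _ (hall _ _ (by decide))
  · exact I.smul_mem _ (hall _ _ (by decide))
  · exact I.smul_mem _ (hall _ _ (by decide))
  · exact I.smul_mem _ (hall _ _ (by decide))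
  · exact I.smul_mem _ (hall _ _ (by decide))
  · exact I.smul_mem _ (hall _ _ (by decide))
  · exact I.smul_mem _ (hbr _ _ (by decide))
  · exact I.smul_mem _ (hbr _ _ (by decide))

theorem tl_comm (A B : Matrix (Fin 3) (Fin 3) ℂ) :
    tl (A * B - B * A) = tl A * tl B - tl B * tl A := by
  unfold tl
  have : (A * B - B * A).trace = 0 := by
    rw [Matrix.trace_sub, Matrix.trace_mul_comm, sub_self]
  rw [this]
  generalize A.trace / 3 = a
  generalize B.trace / 3 = b
  simp only [zero_div, zero_smul, sub_zero, mul_sub, sub_mul, smul_mul_assoc, mul_smul_comm,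
    one_mul, mul_one, smul_sub, smul_smul]
  rw [mul_comm a b]
  abel

/-- The traceless part as a linear map. -/
noncomputable def tlL : Matrix (Fin 3) (Fin 3) ℂ →ₗ[ℂ] Matrix (Fin 3) (Fin 3) ℂ where
  toFun := tl
  map_add' A B := by
    unfold tl
    rw [Matrix.trace_add, add_div, add_smul]
    abel
  map_smul' c A := by
    unfold tl
    rw [Matrix.trace_smul, smul_sub, smul_smul, smul_eq_mul, mul_div_assoc, RingHom.id_apply]

theorem tl_trace (A : Matrix (Fin 3) (Fin 3) ℂ) : (tl A).trace = 0 := by
  unfold tl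
  rw [Matrix.trace_sub, Matrix.trace_smul, Matrix.trace_one]
  simp

theorem tl_single (i j : Fin 3) (h : i ≠ j) :
    tl (single i j 1) = (single i j 1 : Matrix (Fin 3) (Fin 3) ℂ) := by
  unfold tl
  rw [Matrix.trace_single_eq_of_ne _ _ _ h]
  simp

theorem tl_dg_comm (A : Matrix (Fin 3) (Fin 3) ℂ) :
    tl dg * A - A * tl dg = dg * A - A * dg := by
  unfold tl
  simp only [mul_sub, sub_mul, smul_mul_assoc, mul_smul_comm, one_mul, mul_one]
  abel

theorem dg_two (B : Matrix (Fin 3) (Fin 3) ℂ) (h : dg * B - B * dg = (2 : ℂ) • B) :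
    B = B 0 2 • single 0 2 1 + B 1 2 • single 1 2 1 := by
  have h' : ∀ i j, (![1, 1, -1] : Fin 3 → ℂ) i * B i j - B i j * (![1, 1, -1] : Fin 3 → ℂ) j =
      2 * B i j := by
    intro i j
    have := congrFun (congrFun h i) j
    simpa [dg, Matrix.diagonal_mul, Matrix.mul_diagonal] using this
  ext i j
  have h1 := h' i j
  fin_cases i <;> fin_cases j <;> simp at h1 ⊢ <;> first | exact h1 | linear_combination (-1/2) * h1 | linear_combination (-1/4) * h1

theorem dg_neg_two (B : Matrix (Fin 3) (Fin 3) ℂ) (h : dg * B - B * dg = (-2 : ℂ) • B) :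
    B = B 2 0 • single 2 0 1 + B 2 1 • single 2 1 1 := by
  have h' : ∀ i j, (![1, 1, -1] : Fin 3 → ℂ) i * B i j - B i j * (![1, 1, -1] : Fin 3 → ℂ) j =
      -2 * B i j := by
    intro i j
    have := congrFun (congrFun h i) j
    simpa [dg, Matrix.diagonal_mul, Matrix.mul_diagonal] using this
  ext i j
  have h1 := h' i j
  fin_cases i <;> fin_cases j <;> simp at h1 ⊢ <;> first | exact h1 | linear_combination (1/2) * h1 | linear_combination (1/4) * h1

theorem pair_eq (p q a b c : ℂ)
    (h : ((p • single 0 2 1 + q • single 1 2 1 : Matrix (Fin 3) (Fin 3) ℂ) *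
        (a • single 2 0 1 + b • single 2 1 1) - (a • single 2 0 1 + b • single 2 1 1) *
        (p • single 0 2 1 + q • single 1 2 1)) * (p • single 0 2 1 + q • single 1 2 1) -
        (p • single 0 2 1 + q • single 1 2 1) *
        ((p • single 0 2 1 + q • single 1 2 1 : Matrix (Fin 3) (Fin 3) ℂ) *
        (a • single 2 0 1 + b • single 2 1 1) - (a • single 2 0 1 + b • single 2 1 1) *
        (p • single 0 2 1 + q • single 1 2 1)) = (2 * c) • (p • single 0 2 1 + q • single 1 2 1))
    (hn : (p • single 0 2 1 + q • single 1 2 1 : Matrix (Fin 3) (Fin 3) ℂ) ≠ 0) :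
    a * p + b * q = c := by
  have h0 := congrFun (congrFun h 0) 2
  have h1 := congrFun (congrFun h 1) 2
  simp [Matrix.mul_apply, Fin.sum_univ_three, Matrix.single_apply] at h0 h1
  by_cases hp : p = 0
  · by_cases hq : q = 0
    · exact absurd (by rw [hp, hq]; simp) hn
    · apply mul_left_cancel₀ (mul_ne_zero two_ne_zero hq)
      linear_combination h1
  · apply mul_left_cancel₀ (mul_ne_zero two_ne_zero hp)
    linear_combination h0

theorem link (h : S_sli) : S_link := by
  intro M _ _ br T T' hT hT' hE hE' δ hδ hδ' hker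
  -- the traceless parts
  set P : M →ₗ[ℂ] Matrix (Fin 3) (Fin 3) ℂ := tlL.comp T with hP
  set P' : M →ₗ[ℂ] Matrix (Fin 3) (Fin 3) ℂ := tlL.comp T' with hP'
  have Pa : ∀ X, P X = tl (T X) := fun X => rfl
  have Pa' : ∀ X, P' X = tl (T' X) := fun X => rfl
  have Pbr : ∀ X Y, P (br X Y) = P X * P Y - P Y * P X := by
    intro X Y; rw [Pa, Pa, Pa, hT, tl_comm]
  have Pbr' : ∀ X Y, P' (br X Y) = P' X * P' Y - P' Y * P' X := by
    intro X Y; rw [Pa', Pa', Pa', hT', tl_comm]
  have Pk : ∀ X, P' X = 0 → P X = 0 := hker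
  have Pk2 : ∀ X Y, P' X = P' Y → P X = P Y := by
    intro X Y hXY
    have : P (X - Y) = 0 := Pk _ (by rw [map_sub, hXY, sub_self])
    rw [map_sub] at this
    exact sub_eq_zero.1 this
  have PE : ∀ i j : Fin 3, i ≠ j → ∃ X, P X = single i j 1 := by
    intro i j hij
    obtain ⟨X, hX⟩ := hE i j hij
    exact ⟨X, by rw [Pa, hX, tl_single i j hij]⟩
  have PE' : ∀ i j : Fin 3, i ≠ j → ∃ X, P' X = single i j 1 := by
    intro i j hij
    obtain ⟨X, hX⟩ := hE' i j hij
    exact ⟨X, by rw [Pa', hX, tl_single i j hij]⟩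
  -- injectivity
  have Pinj : ∀ X, P X = 0 → P' X = 0 := by
    intro X hX
    by_contra hne
    have hI := h ((LinearMap.ker P).map P') (by
      rintro A ⟨Y, -, rfl⟩
      rw [Pa']; exact tl_trace _) (by
      rintro i j hij A ⟨Y, hY, rfl⟩
      obtain ⟨Z, hZ⟩ := PE' i j hij
      refine ⟨br Z Y, ?_, ?_⟩
      · have hY' : P Y = 0 := hY
        show P (br Z Y) = 0
        rw [Pbr, hY']; simp
      · rw [Pbr', hZ]) (by
      intro hbot
      apply hne
      have : P' X ∈ (LinearMap.ker P).map P' := ⟨X, hX, rfl⟩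
      rw [hbot] at this
      exact this)
    obtain ⟨Y, hY⟩ := PE 0 1 (by decide)
    obtain ⟨Z, hZ, hZY⟩ := hI (P' Y) (by rw [Pa']; exact tl_trace _)
    have h1 := Pk2 Z Y hZY
    have hZ' : P Z = 0 := hZ
    rw [hZ', hY] at h1
    exact single_ne_zero' 0 1 h1.symm
  obtain ⟨X02, h02⟩ := PE' 0 2 (by decide)
  obtain ⟨X12, h12⟩ := PE' 1 2 (by decide)
  obtain ⟨X20, h20⟩ := PE' 2 0 (by decide)
  obtain ⟨X21, h21⟩ := PE' 2 1 (by decide)
  have Pδ : P δ = tl dg := by rw [Pa, hδ]
  have Pδ' : P' δ = tl dg := by rw [Pa', hδ']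
  have up : ∀ X (i : Fin 3), i ≠ 2 → P' X = single i 2 1 →
      dg * P X - P X * dg = (2 : ℂ) • P X := by
    intro X i hi hX
    have h1 : P (br δ X) = P ((2 : ℂ) • X) := by
      apply Pk2
      rw [Pbr', Pδ', tl_dg_comm, map_smul, hX]
      ext a b
      fin_cases i <;> fin_cases a <;> fin_cases b <;> simp [dg] at hi ⊢
      all_goals norm_num
    rw [Pbr, Pδ, tl_dg_comm, map_smul] at h1
    exact h1
  have dn : ∀ X (i : Fin 3), i ≠ 2 → P' X = single 2 i 1 →
      dg * P X - P X * dg = (-2 : ℂ) • P X := by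
    intro X i hi hX
    have h1 : P (br δ X) = P ((-2 : ℂ) • X) := by
      apply Pk2
      rw [Pbr', Pδ', tl_dg_comm, map_smul, hX]
      ext a b
      fin_cases i <;> fin_cases a <;> fin_cases b <;> simp [dg] at hi ⊢
      all_goals norm_num
    rw [Pbr, Pδ, tl_dg_comm, map_smul] at h1
    exact h1
  have e02 := dg_two _ (up X02 0 (by decide) h02)
  have e12 := dg_two _ (up X12 1 (by decide) h12)
  have e20 := dg_neg_two _ (dn X20 0 (by decide) h20)
  have e21 := dg_neg_two _ (dn X21 1 (by decide) h21)
  have n02 : P X02 ≠ 0 := fun h0 => single_ne_zero' 0 2 (h02 ▸ Pinj _ h0)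
  have n12 : P X12 ≠ 0 := fun h0 => single_ne_zero' 1 2 (h12 ▸ Pinj _ h0)
  have tri : ∀ X Y (c : ℂ), (P' X * P' Y - P' Y * P' X) * P' X -
      P' X * (P' X * P' Y - P' Y * P' X) = (2 * c) • P' X →
      (P X * P Y - P Y * P X) * P X - P X * (P X * P Y - P Y * P X) = (2 * c) • P X := by
    intro X Y c hc
    have h1 : P (br (br X Y) X) = P ((2 * c) • X) := by
      apply Pk2
      rw [Pbr', Pbr', map_smul, hc]
    rw [Pbr, Pbr, map_smul] at h1
    exact h1
  have r00 := tri X02 X20 1 (by
    rw [h02, h20]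
    ext a b
    fin_cases a <;> fin_cases b <;> simp [Matrix.mul_apply, Fin.sum_univ_three, Matrix.single_apply]
    all_goals norm_num)
  have r01 := tri X02 X21 0 (by
    rw [h02, h21]
    ext a b
    fin_cases a <;> fin_cases b <;> simp [Matrix.mul_apply, Fin.sum_univ_three, Matrix.single_apply])
  have r10 := tri X12 X20 0 (by
    rw [h12, h20]
    ext a b
    fin_cases a <;> fin_cases b <;> simp [Matrix.mul_apply, Fin.sum_univ_three, Matrix.single_apply])
  have r11 := tri X12 X21 1 (by
    rw [h12, h21]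
    ext a b
    fin_cases a <;> fin_cases b <;> simp [Matrix.mul_apply, Fin.sum_univ_three, Matrix.single_apply]
    all_goals norm_num)
  generalize hp : P X02 0 2 = p at e02
  generalize hq : P X02 1 2 = q at e02
  generalize hr : P X12 0 2 = r at e12
  generalize hs : P X12 1 2 = s at e12
  generalize ha : P X20 2 0 = a at e20
  generalize hb : P X20 2 1 = b at e20
  generalize hc : P X21 2 0 = c at e21
  generalize hd : P X21 2 1 = d at e21
  rw [e02, e20] at r00
  rw [e02, e21] at r01
  rw [e12, e20] at r10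
  rw [e12, e21] at r11
  rw [e02] at n02
  rw [e12] at n12
  have q00 := pair_eq _ _ _ _ _ r00 n02
  have q01 := pair_eq _ _ _ _ _ r01 n02
  have q10 := pair_eq _ _ _ _ _ r10 n12
  have q11 := pair_eq _ _ _ _ _ r11 n12
  set τ : Matrix (Fin 3) (Fin 3) ℂ := !![p, r, 0; q, s, 0; 0, 0, 1] with hτ
  refine ⟨τ, ?_, ?_⟩
  · rw [isUnit_iff_ne_zero]
    intro h0
    have hdet : τ.det = p * s - r * q := by
      rw [hτ, Matrix.det_fin_three]; simp
    have : (a * d - b * c) * (p * s - r * q) = 1 := by
      linear_combination (c * r + d * s) * q00 - (a * r + b * s) * q01 + q11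
    rw [← hdet, h0, mul_zero] at this
    exact zero_ne_one this
  · have good : ∀ X Y, P X * τ = τ * P' X → P Y * τ = τ * P' Y →
        P (br X Y) * τ = τ * P' (br X Y) := by
      intro X Y hX hY
      rw [Pbr, Pbr', sub_mul, mul_assoc, hY, ← mul_assoc, hX, mul_assoc (P Y), hX, ← mul_assoc,
        hY, mul_sub]
      simp only [mul_assoc]
    have g02 : P X02 * τ = τ * P' X02 := by
      rw [e02, h02]
      ext i j
      fin_cases i <;> fin_cases j <;> simp [hτ, Matrix.mul_apply, Fin.sum_univ_three,
        Matrix.single_apply]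
    have g12 : P X12 * τ = τ * P' X12 := by
      rw [e12, h12]
      ext i j
      fin_cases i <;> fin_cases j <;> simp [hτ, Matrix.mul_apply, Fin.sum_univ_three,
        Matrix.single_apply]
    have g20 : P X20 * τ = τ * P' X20 := by
      rw [e20, h20]
      ext i j
      fin_cases i <;> fin_cases j <;> simp [hτ, Matrix.mul_apply, Fin.sum_univ_three,
        Matrix.single_apply]
      · exact q00
      · exact q10
    have g21 : P X21 * τ = τ * P' X21 := by
      rw [e21, h21]
      ext i j
      fin_cases i <;> fin_cases j <;> simp [hτ, Matrix.mul_apply, Fin.sum_univ_three,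
        Matrix.single_apply]
      · exact q01
      · exact q11
    have gc : ∀ X Y, P' X = P' Y → P Y * τ = τ * P' Y → P X * τ = τ * P' X := by
      intro X Y hXY hY
      rw [Pk2 X Y hXY, hXY, hY]
    intro X
    show P X * τ = τ * P' X
    have htr : (P' X).trace = 0 := by rw [Pa']; exact tl_trace _
    set A := P' X with hA
    have hexp := tz_expand A htr
    let W : M := A 0 1 • br X02 X21 + A 0 2 • X02 + A 1 0 • br X12 X20 + A 1 2 • X12 +
      A 2 0 • X20 + A 2 1 • X21 + A 0 0 • br X02 X20 + A 1 1 • br X12 X21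
    have hW : P' W = A := by
      have i1 : P' (br X02 X21) = single 0 1 1 := by
        rw [Pbr', h02, h21]
        ext i j
        fin_cases i <;> fin_cases j <;> simp [Matrix.mul_apply, Fin.sum_univ_three,
          Matrix.single_apply]
      have i2 : P' (br X12 X20) = single 1 0 1 := by
        rw [Pbr', h12, h20]
        ext i j
        fin_cases i <;> fin_cases j <;> simp [Matrix.mul_apply, Fin.sum_univ_three,
          Matrix.single_apply]
      show P' (A 0 1 • br X02 X21 + A 0 2 • X02 + A 1 0 • br X12 X20 + A 1 2 • X12 +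
        A 2 0 • X20 + A 2 1 • X21 + A 0 0 • br X02 X20 + A 1 1 • br X12 X21) = A
      simp only [map_add, map_smul]
      rw [i1, i2, Pbr', Pbr', h02, h12, h20, h21]
      exact hexp.symm
    have gW : P W * τ = τ * P' W := by
      show P (A 0 1 • br X02 X21 + A 0 2 • X02 + A 1 0 • br X12 X20 + A 1 2 • X12 +
        A 2 0 • X20 + A 2 1 • X21 + A 0 0 • br X02 X20 + A 1 1 • br X12 X21) * τ =
        τ * P' (A 0 1 • br X02 X21 + A 0 2 • X02 + A 1 0 • br X12 X20 + A 1 2 • X12 +
        A 2 0 • X20 + A 2 1 • X21 + A 0 0 • br X02 X20 + A 1 1 • br X12 X21)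
      simp only [map_add, map_smul, add_mul, mul_add, smul_mul_assoc, mul_smul_comm]
      rw [good _ _ g02 g21, good _ _ g12 g20, good _ _ g02 g20, good _ _ g12 g21, g02, g12, g20,
        g21]
    rw [Pk2 X W (by rw [hW]), gW, hW]

end Pool.Agent.Q134.D3
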